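import Mathlib

/-!
# A plane Cantor set of dimension one built from two similarities with ratio one half
-/

set_option autoImplicit false

open Complex Filter Topology
open scoped ComplexConjugate

namespace Pool.Agent.R21.CD

/-- the parameters: sine and cosine of a small angle -/
structure Par where
  s : ℝ
  c : ℝ
  hs : 0 < s
  hs4 : s ≤ 1 / 4
  hc : 0 < c
  hsc : s ^ 2 + c ^ 2 = 1

namespace Par

variable (P : Par)

lemma c_le : P.c ≤ 1 := by nlinarith [P.hsc, P.hs, P.hc]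

lemma c_ge : 24 / 25 ≤ P.c := by
  by_contra h
  push Not at h
  nlinarith [P.hsc, P.hs, P.hs4, P.hc]

lemma one_sub_c : P.s ^ 2 / 2 ≤ 1 - P.c := by
  nlinarith [P.hsc, P.c_le, P.hc]

/-- the unit vector -/
noncomputable def e : ℂ := ⟨P.c, P.s⟩

lemma norm_e : ‖P.e‖ = 1 := by
  have h : ‖P.e‖ ^ 2 = 1 := by
    rw [Complex.sq_norm, Complex.normSq_apply]
    show P.c * P.c + P.s * P.s = 1
    nlinarith [P.hsc]
  have h0 := norm_nonneg P.e
  nlinarith

lemma norm_e_sub_one : ‖P.e - 1‖ ≤ 3 / 2 * P.s := by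
  have h : ‖P.e - 1‖ ^ 2 = (P.c - 1) ^ 2 + P.s ^ 2 := by
    rw [Complex.sq_norm, Complex.normSq_apply]
    show (P.c - 1) * (P.c - 1) + (P.s - 0) * (P.s - 0) = _
    ring
  have h1 : (P.c - 1) ^ 2 + P.s ^ 2 ≤ (3 / 2 * P.s) ^ 2 := by
    have h2 := P.hsc
    have h3 := P.c_le
    have h4 := P.c_ge
    -- 1 - c ≤ s ^ 2
    have h5 : 1 - P.c ≤ P.s ^ 2 := by nlinarith [P.hc]
    have h6 : (P.c - 1) ^ 2 ≤ P.s ^ 2 := by
      have : P.s ^ 2 ≤ 1 := by nlinarith [P.hs, P.hs4]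
      nlinarith
    nlinarith [P.hs]
  have h7 := norm_nonneg (P.e - 1)
  have h8 := P.hs
  nlinarith

/-- the two similarities -/
noncomputable def f (b : Fin 2) (z : ℂ) : ℂ :=
  if b = 0 then P.e / 2 * conj z else 1 - conj P.e / 2 * (1 - conj z)

/-- the linear parts -/
noncomputable def aa (b : Fin 2) : ℂ := if b = 0 then P.e / 2 else conj P.e / 2

lemma f_sub (b : Fin 2) (z w : ℂ) : P.f b z - P.f b w = P.aa b * conj (z - w) := by
  unfold f aa
  split_ifs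
  · rw [map_sub]; ring
  · rw [map_sub]; ring

lemma norm_aa (b : Fin 2) : ‖P.aa b‖ = 1 / 2 := by
  unfold aa
  split_ifs
  · rw [norm_div, P.norm_e]; norm_num
  · rw [norm_div, Complex.norm_conj, P.norm_e]; norm_num

lemma norm_f_sub (b : Fin 2) (z w : ℂ) : ‖P.f b z - P.f b w‖ = 1 / 2 * ‖z - w‖ := by
  rw [P.f_sub, norm_mul, P.norm_aa, Complex.norm_conj]

lemma continuous_f (b : Fin 2) : Continuous (P.f b) := by
  unfold f
  split_ifs
  · exact continuous_const.mul Complex.continuous_conj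
  · exact continuous_const.sub (continuous_const.mul (continuous_const.sub Complex.continuous_conj))

lemma f_zero_re (z : ℂ) : (P.f 0 z).re = (z.re * P.c + z.im * P.s) / 2 := by
  unfold f
  rw [if_pos rfl, div_mul_eq_mul_div]
  have : (P.e * conj z / 2).re = (P.e * conj z).re / 2 := by
    rw [show (2 : ℂ) = ((2 : ℝ) : ℂ) by norm_num, Complex.div_ofReal_re]
  rw [this, Complex.mul_re, Complex.conj_re, Complex.conj_im]
  show (P.c * z.re - P.s * (-z.im)) / 2 = _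
  ring

lemma f_zero_im (z : ℂ) : (P.f 0 z).im = (z.re * P.s - z.im * P.c) / 2 := by
  unfold f
  rw [if_pos rfl, div_mul_eq_mul_div]
  have : (P.e * conj z / 2).im = (P.e * conj z).im / 2 := by
    rw [show (2 : ℂ) = ((2 : ℝ) : ℂ) by norm_num, Complex.div_ofReal_im]
  rw [this, Complex.mul_im, Complex.conj_re, Complex.conj_im]
  show (P.c * (-z.im) + P.s * z.re) / 2 = _
  ring

lemma f_one_re (z : ℂ) : (P.f 1 z).re = 1 - ((1 - z.re) * P.c + z.im * P.s) / 2 := by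
  unfold f
  rw [if_neg (by decide), div_mul_eq_mul_div, Complex.sub_re]
  have : (conj P.e * (1 - conj z) / 2).re = (conj P.e * (1 - conj z)).re / 2 := by
    rw [show (2 : ℂ) = ((2 : ℝ) : ℂ) by norm_num, Complex.div_ofReal_re]
  rw [this, Complex.mul_re, Complex.conj_re, Complex.conj_im, Complex.sub_re, Complex.sub_im,
    Complex.conj_re, Complex.conj_im, Complex.one_re, Complex.one_im]
  show 1 - (P.c * (1 - z.re) - (-P.s) * (0 - -z.im)) / 2 = _
  ring

lemma f_one_im (z : ℂ) : (P.f 1 z).im = ((1 - z.re) * P.s - z.im * P.c) / 2 := by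
  unfold f
  rw [if_neg (by decide), div_mul_eq_mul_div, Complex.sub_im]
  have : (conj P.e * (1 - conj z) / 2).im = (conj P.e * (1 - conj z)).im / 2 := by
    rw [show (2 : ℂ) = ((2 : ℝ) : ℂ) by norm_num, Complex.div_ofReal_im]
  rw [this, Complex.mul_im, Complex.conj_re, Complex.conj_im, Complex.sub_re, Complex.sub_im,
    Complex.conj_re, Complex.conj_im, Complex.one_re, Complex.one_im]
  show 0 - (P.c * (0 - -z.im) + (-P.s) * (1 - z.re)) / 2 = _
  ring

/-- the thin triangle -/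
def T : Set ℂ := {z | 0 ≤ z.im ∧ z.im * P.c ≤ z.re * P.s ∧ z.im * P.c ≤ (1 - z.re) * P.s}

lemma isClosed_T : IsClosed P.T := by
  unfold T
  apply (isClosed_le continuous_const Complex.continuous_im).inter
  apply (isClosed_le (Complex.continuous_im.mul continuous_const)
    (Complex.continuous_re.mul continuous_const)).inter
  exact isClosed_le (Complex.continuous_im.mul continuous_const)
    ((continuous_const.sub Complex.continuous_re).mul continuous_const)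

lemma T_re {z : ℂ} (hz : z ∈ P.T) : 0 ≤ z.re ∧ z.re ≤ 1 := by
  obtain ⟨h1, h2, h3⟩ := hz
  have hs := P.hs
  have hc := P.hc
  have h4 : 0 ≤ z.im * P.c := by positivity
  constructor
  · by_contra hcon; push Not at hcon; nlinarith
  · by_contra hcon; push Not at hcon; nlinarith

lemma f_mem_T (b : Fin 2) {z : ℂ} (hz : z ∈ P.T) : P.f b z ∈ P.T := by
  obtain ⟨hr0, hr1⟩ := P.T_re hz
  obtain ⟨h1, h2, h3⟩ := hz
  have hs := P.hs
  have hs4 := P.hs4
  have hc := P.hc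
  have hc1 := P.c_le
  have hsc := P.hsc
  have hcs : P.s ^ 2 ≤ P.c ^ 2 := by nlinarith [P.c_ge]
  fin_cases b
  · show P.f 0 z ∈ P.T
    refine ⟨?_, ?_, ?_⟩
    · rw [P.f_zero_im]; linarith
    · rw [P.f_zero_im, P.f_zero_re]
      nlinarith
    · rw [P.f_zero_im, P.f_zero_re]
      have h5 : 0 ≤ z.im * (P.c ^ 2 - P.s ^ 2) := mul_nonneg h1 (by linarith)
      have h6 : z.re * P.c ≤ 1 := by nlinarith
      nlinarith
  · show P.f 1 z ∈ P.T
    refine ⟨?_, ?_, ?_⟩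
    · rw [P.f_one_im]; linarith
    · rw [P.f_one_im, P.f_one_re]
      have h5 : 0 ≤ z.im * (P.c ^ 2 - P.s ^ 2) := mul_nonneg h1 (by linarith)
      have h6 : (1 - z.re) * P.c ≤ 1 := by nlinarith
      nlinarith
    · rw [P.f_one_im, P.f_one_re]
      nlinarith

lemma sq_im_le {z : ℂ} (hz : z ∈ P.T) : z.im ^ 2 ≤ z.re * (1 - z.re) := by
  obtain ⟨hr0, hr1⟩ := P.T_re hz
  obtain ⟨h1, h2, h3⟩ := hz
  have hs := P.hs
  have hc := P.hc
  have h4 : (z.im * P.c) ^ 2 ≤ (z.re * P.s) * ((1 - z.re) * P.s) := by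
    have : 0 ≤ z.im * P.c := by positivity
    nlinarith
  have hcs : P.s ^ 2 ≤ P.c ^ 2 := by nlinarith [P.c_ge, P.hs4]
  have h5 : 0 ≤ z.re * (1 - z.re) := mul_nonneg hr0 (by linarith)
  have h6 : z.im ^ 2 * P.c ^ 2 ≤ z.re * (1 - z.re) * P.c ^ 2 := by nlinarith
  have h7 : 0 < P.c ^ 2 := by positivity
  exact le_of_mul_le_mul_right h6 h7

lemma norm_le_one {z : ℂ} (hz : z ∈ P.T) : ‖z‖ ≤ 1 := by
  have h1 := P.sq_im_le hz
  obtain ⟨hr0, hr1⟩ := P.T_re hz
  have h2 : ‖z‖ ^ 2 ≤ 1 := by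
    rw [Complex.sq_norm, Complex.normSq_apply]
    nlinarith
  nlinarith [norm_nonneg z]

lemma norm_one_sub_le {z : ℂ} (hz : z ∈ P.T) : ‖1 - z‖ ≤ 1 := by
  have h1 := P.sq_im_le hz
  obtain ⟨hr0, hr1⟩ := P.T_re hz
  have h2 : ‖1 - z‖ ^ 2 ≤ 1 := by
    rw [Complex.sq_norm, Complex.normSq_apply, Complex.sub_re, Complex.sub_im, Complex.one_re,
      Complex.one_im]
    nlinarith
  nlinarith [norm_nonneg (1 - z)]

lemma re_ge {z : ℂ} (hz : z ∈ P.T) : 24 / 25 * ‖z‖ ≤ z.re := by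
  obtain ⟨hr0, hr1⟩ := P.T_re hz
  obtain ⟨h1, h2, h3⟩ := hz
  have hsc := P.hsc
  have hc := P.c_ge
  have h4 : (P.c * ‖z‖) ^ 2 ≤ z.re ^ 2 := by
    rw [mul_pow, Complex.sq_norm, Complex.normSq_apply]
    have h5 : (z.im * P.c) ^ 2 ≤ (z.re * P.s) ^ 2 := by
      have : 0 ≤ z.im * P.c := mul_nonneg h1 P.hc.le
      exact pow_le_pow_left₀ this h2 2
    nlinarith
  have h5 : P.c * ‖z‖ ≤ z.re := by
    have h6 : 0 ≤ P.c * ‖z‖ := mul_nonneg P.hc.le (norm_nonneg _)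
    nlinarith
  have h7 : 24 / 25 * ‖z‖ ≤ P.c * ‖z‖ := mul_le_mul_of_nonneg_right hc (norm_nonneg _)
  linarith

lemma one_sub_re_ge {z : ℂ} (hz : z ∈ P.T) : 24 / 25 * ‖1 - z‖ ≤ 1 - z.re := by
  obtain ⟨hr0, hr1⟩ := P.T_re hz
  obtain ⟨h1, h2, h3⟩ := hz
  have hsc := P.hsc
  have hc := P.c_ge
  have h4 : (P.c * ‖1 - z‖) ^ 2 ≤ (1 - z.re) ^ 2 := by
    rw [mul_pow, Complex.sq_norm, Complex.normSq_apply, Complex.sub_re, Complex.sub_im,
      Complex.one_re, Complex.one_im]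
    have h5 : (z.im * P.c) ^ 2 ≤ ((1 - z.re) * P.s) ^ 2 := by
      have : 0 ≤ z.im * P.c := mul_nonneg h1 P.hc.le
      exact pow_le_pow_left₀ this h3 2
    nlinarith
  have h5 : P.c * ‖1 - z‖ ≤ 1 - z.re := by
    have h6 : 0 ≤ P.c * ‖1 - z‖ := mul_nonneg P.hc.le (norm_nonneg _)
    nlinarith
  have h7 : 24 / 25 * ‖1 - z‖ ≤ P.c * ‖1 - z‖ := mul_le_mul_of_nonneg_right hc (norm_nonneg _)
  linarith

/-- differences between the right and the left child -/
lemma diff_re {z w : ℂ} (hz : z ∈ P.T) (hw : w ∈ P.T) :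
    1 - P.c + 43 / 100 * ((1 - z.re) + w.re) ≤ (P.f 1 w - P.f 0 z).re := by
  obtain ⟨hzr0, hzr1⟩ := P.T_re hz
  obtain ⟨hwr0, hwr1⟩ := P.T_re hw
  obtain ⟨h1, h2, h3⟩ := hz
  obtain ⟨k1, k2, k3⟩ := hw
  have hs := P.hs
  have hs4 := P.hs4
  have hc := P.c_ge
  have hc1 := P.c_le
  have hsc := P.hsc
  rw [Complex.sub_re, P.f_one_re, P.f_zero_re]
  -- `im * s ≤ re * s^2 / c`
  have hss : P.s ^ 2 ≤ 1 / 16 := by nlinarith
  have h4 : z.im * P.s ≤ (1 - z.re) * (1 / 15) := by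
    have h5 : z.im ≤ (1 - z.re) * P.s * (25 / 24) := by
      have : z.im * (24 / 25) ≤ z.im * P.c := mul_le_mul_of_nonneg_left hc h1
      linarith
    have h6 : z.im * P.s ≤ (1 - z.re) * P.s * (25 / 24) * P.s :=
      mul_le_mul_of_nonneg_right h5 hs.le
    have h7 : (1 - z.re) * P.s ^ 2 ≤ (1 - z.re) * (1 / 16) :=
      mul_le_mul_of_nonneg_left hss (by linarith)
    nlinarith
  have k4 : w.im * P.s ≤ w.re * (1 / 15) := by
    have h5 : w.im ≤ w.re * P.s * (25 / 24) := by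
      have : w.im * (24 / 25) ≤ w.im * P.c := mul_le_mul_of_nonneg_left hc k1
      linarith
    have h6 : w.im * P.s ≤ w.re * P.s * (25 / 24) * P.s :=
      mul_le_mul_of_nonneg_right h5 hs.le
    have h7 : w.re * P.s ^ 2 ≤ w.re * (1 / 16) := mul_le_mul_of_nonneg_left hss hwr0
    nlinarith
  have h8 : (1 - z.re) * (24 / 25) ≤ (1 - z.re) * P.c := mul_le_mul_of_nonneg_left hc (by linarith)
  have h9 : w.re * (24 / 25) ≤ w.re * P.c := mul_le_mul_of_nonneg_left hc hwr0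
  nlinarith

lemma diff_im {z w : ℂ} (hz : z ∈ P.T) (hw : w ∈ P.T) :
    |(P.f 1 w - P.f 0 z).im| ≤ P.s * ((1 - z.re) + w.re) := by
  obtain ⟨hzr0, hzr1⟩ := P.T_re hz
  obtain ⟨hwr0, hwr1⟩ := P.T_re hw
  obtain ⟨h1, h2, h3⟩ := hz
  obtain ⟨k1, k2, k3⟩ := hw
  have hs := P.hs
  have hc := P.hc
  rw [Complex.sub_im, P.f_one_im, P.f_zero_im]
  have h4 : 0 ≤ z.im * P.c := by positivity
  have k4 : 0 ≤ w.im * P.c := by positivity
  have h5 : 0 ≤ (1 - z.re) * P.s := mul_nonneg (by linarith) hs.le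
  have k5 : 0 ≤ w.re * P.s := mul_nonneg hwr0 hs.le
  rw [abs_le]
  constructor <;> linarith

lemma diff_im_le {z w : ℂ} (hz : z ∈ P.T) (hw : w ∈ P.T) :
    |(P.f 1 w - P.f 0 z).im| ≤ 4 * P.s * (P.f 1 w - P.f 0 z).re := by
  have h1 := P.diff_re hz hw
  have h2 := P.diff_im hz hw
  obtain ⟨hzr0, hzr1⟩ := P.T_re hz
  obtain ⟨hwr0, hwr1⟩ := P.T_re hw
  have hs := P.hs
  have hc1 := P.c_le
  have h3 : 43 / 100 * ((1 - z.re) + w.re) ≤ (P.f 1 w - P.f 0 z).re := by linarith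
  have h4 : P.s * ((1 - z.re) + w.re) ≤ P.s * (4 * (P.f 1 w - P.f 0 z).re) := by
    apply mul_le_mul_of_nonneg_left _ hs.le
    linarith
  linarith

/-- codes -/
abbrev Code : Type := ℕ → Fin 2

/-- the shift of codes -/
def sh (w : Code) : Code := fun i => w (i + 1)

/-- the approximations -/
noncomputable def Gn : ℕ → Code → ℂ
  | 0, _ => 0
  | n + 1, w => P.f (w 0) (Gn n (sh w))

lemma zero_mem_T : (0 : ℂ) ∈ P.T := by
  have := P.hs
  refine ⟨?_, ?_, ?_⟩ <;> simp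
  exact this.le

lemma Gn_mem (n : ℕ) (w : Code) : P.Gn n w ∈ P.T := by
  induction n generalizing w with
  | zero => exact P.zero_mem_T
  | succ n ih => exact P.f_mem_T _ (ih _)

lemma Gn_step (n : ℕ) (w : Code) : dist (P.Gn n w) (P.Gn (n + 1) w) ≤ 1 * (1 / 2) ^ n := by
  induction n generalizing w with
  | zero =>
    rw [dist_comm, dist_eq_norm]
    simp only [Gn, sub_zero, pow_zero, mul_one]
    exact P.norm_le_one (P.f_mem_T _ P.zero_mem_T)
  | succ n ih =>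
    rw [dist_eq_norm]
    show ‖P.f (w 0) (P.Gn n (sh w)) - P.f (w 0) (P.Gn (n + 1) (sh w))‖ ≤ _
    rw [P.norm_f_sub, ← dist_eq_norm, pow_succ]
    have := ih (sh w)
    linarith

/-- the point with a given code -/
noncomputable def G (w : Code) : ℂ := limUnder atTop (fun n => P.Gn n w)

lemma tendsto_G (w : Code) : Tendsto (fun n => P.Gn n w) atTop (𝓝 (P.G w)) :=
  CauchySeq.tendsto_limUnder (cauchySeq_of_le_geometric (1 / 2) 1 (by norm_num) (fun n => P.Gn_step n w))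

lemma G_mem (w : Code) : P.G w ∈ P.T :=
  P.isClosed_T.mem_of_tendsto (P.tendsto_G w) (Eventually.of_forall fun n => P.Gn_mem n w)

lemma G_eq (w : Code) : P.G w = P.f (w 0) (P.G (sh w)) := by
  have h1 : Tendsto (fun n => P.Gn (n + 1) w) atTop (𝓝 (P.G w)) :=
    (P.tendsto_G w).comp (tendsto_add_atTop_nat 1)
  have h2 : Tendsto (fun n => P.f (w 0) (P.Gn n (sh w))) atTop (𝓝 (P.f (w 0) (P.G (sh w)))) :=
    ((P.continuous_f (w 0)).tendsto _).comp (P.tendsto_G (sh w))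
  exact tendsto_nhds_unique h1 h2

end Par

end Pool.Agent.R21.CD
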