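import Pool.Agent.R21.CD.Metric

/-!
# Hausdorff measure estimates for the Cantor set
-/

set_option autoImplicit false

open Complex Filter Topology Set MeasureTheory Measure
open scoped ComplexConjugate ENNReal NNReal

namespace Pool.Agent.R21.CD

open Par

namespace Par

variable (P : Par)

lemma hausdorff_le (A : Set ℂ) (hA : A ⊆ P.E) (nn : ℕ → ℕ) (hnn : Tendsto nn atTop atTop)
    (S : ℕ → Finset ℕ) (hS : ∀ j w, P.G w ∈ A → pref (nn j) w ∈ S j) (g : ℕ → ℝ) (c : ℝ)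
    (hg : ∀ j, ((S j).card : ℝ) * (2 * (1 / 2) ^ (nn j)) ≤ g j) (hgc : Tendsto g atTop (𝓝 c)) :
    μH[1] A ≤ ENNReal.ofReal c := by
  have hdiam : ∀ j (i : S j), Metric.ediam (P.G '' {w | pref (nn j) w = (i : ℕ)})
      ≤ ENNReal.ofReal (2 * (1 / 2) ^ (nn j)) := by
    intro j i
    apply Metric.ediam_le
    rintro _ ⟨w, hw, rfl⟩ _ ⟨w', hw', rfl⟩
    rw [edist_dist, dist_eq_norm]
    exact ENNReal.ofReal_le_ofReal (P.norm_G_sub_le _ w w' (hw.trans hw'.symm))
  have h1 := hausdorffMeasure_le_liminf_sum (ι := fun j => (S j)) 1 A (l := atTop)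
    (fun j => ENNReal.ofReal (2 * (1 / 2) ^ (nn j))) ?_
    (fun j a => P.G '' {w | pref (nn j) w = (a : ℕ)})
    (Eventually.of_forall hdiam) ?_
  · refine h1.trans ?_
    have h2 : ∀ j, ∑ i : S j, Metric.ediam (P.G '' {w | pref (nn j) w = (i : ℕ)}) ^ (1 : ℝ)
        ≤ ENNReal.ofReal (g j) := by
      intro j
      calc ∑ i : S j, Metric.ediam (P.G '' {w | pref (nn j) w = (i : ℕ)}) ^ (1 : ℝ)
          ≤ ∑ _i : S j, ENNReal.ofReal (2 * (1 / 2) ^ (nn j)) := by
            apply Finset.sum_le_sum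
            intro i _
            rw [ENNReal.rpow_one]
            exact hdiam j i
        _ = ENNReal.ofReal (((S j).card : ℝ) * (2 * (1 / 2) ^ (nn j))) := by
            rw [Finset.sum_const, Finset.card_univ, Fintype.card_coe, nsmul_eq_mul,
              ENNReal.ofReal_mul (p := ((S j).card : ℝ)) (Nat.cast_nonneg _),
              ENNReal.ofReal_natCast]
        _ ≤ _ := ENNReal.ofReal_le_ofReal (hg j)
    calc liminf (fun j => ∑ i : S j,
          Metric.ediam (P.G '' {w | pref (nn j) w = (i : ℕ)}) ^ (1 : ℝ)) atTop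
        ≤ liminf (fun j => ENNReal.ofReal (g j)) atTop :=
          liminf_le_liminf (Eventually.of_forall h2)
      _ = ENNReal.ofReal c := (ENNReal.tendsto_ofReal hgc).liminf_eq
  · have h3 : Tendsto (fun j => 2 * ((1 : ℝ) / 2) ^ (nn j)) atTop (𝓝 (2 * 0)) :=
      (tendsto_half.comp hnn).const_mul 2
    have h4 := ENNReal.tendsto_ofReal h3
    rwa [mul_zero, ENNReal.ofReal_zero] at h4
  · refine Eventually.of_forall fun j => ?_
    intro z hz
    obtain ⟨w, rfl⟩ := hA hz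
    rw [mem_iUnion]
    exact ⟨⟨pref (nn j) w, hS j w hz⟩, w, rfl, rfl⟩

lemma hausdorff_interval (A : Set ℂ) (hA : A ⊆ P.E) (a b : ℝ) (hab : a ≤ b) (hb : 0 ≤ b)
    (h : ∀ w, P.G w ∈ A → a ≤ tt w ∧ tt w ≤ b) : μH[1] A ≤ ENNReal.ofReal (2 * (b - a)) := by
  apply P.hausdorff_le A hA id tendsto_id
    (fun n => Finset.Icc ⌈a * 2 ^ n - 1⌉₊ ⌊b * 2 ^ n⌋₊) ?_
    (fun n => 2 * (b - a) + 4 * (1 / 2) ^ n) _ ?_ ?_
  · intro n w hw
    obtain ⟨h1, h2⟩ := h w hw
    have h3 := tt_pref n w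
    have h4 := tt_nonneg (shn n w)
    have h5 := tt_le_one (shn n w)
    have h6 : (0 : ℝ) < 2 ^ n := by positivity
    have h7 : tt w * 2 ^ n = pref n w + tt (shn n w) := by rw [h3]; field_simp
    rw [Finset.mem_Icc]
    constructor
    · apply Nat.ceil_le.mpr
      show a * 2 ^ n - 1 ≤ ((pref n w : ℕ) : ℝ)
      have : a * 2 ^ n ≤ tt w * 2 ^ n := mul_le_mul_of_nonneg_right h1 h6.le
      linarith
    · apply Nat.le_floor
      show ((pref n w : ℕ) : ℝ) ≤ b * 2 ^ n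
      have : tt w * 2 ^ n ≤ b * 2 ^ n := mul_le_mul_of_nonneg_right h2 h6.le
      linarith
  · intro n
    have h6 : (0 : ℝ) < 2 ^ n := by positivity
    have h7 : (0 : ℝ) ≤ (b - a) * 2 ^ n := mul_nonneg (by linarith) h6.le
    have h1 : (((Finset.Icc ⌈a * 2 ^ n - 1⌉₊ ⌊b * 2 ^ n⌋₊).card : ℕ) : ℝ) ≤ (b - a) * 2 ^ n + 2 := by
      rw [Nat.card_Icc]
      rcases le_total (⌈a * 2 ^ n - 1⌉₊) (⌊b * 2 ^ n⌋₊ + 1) with h2 | h2
      · rw [Nat.cast_sub h2]
        have h3 := Nat.le_ceil (a * 2 ^ n - 1)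
        have h4 := Nat.floor_le (show 0 ≤ b * 2 ^ n by positivity)
        push_cast
        linarith
      · rw [Nat.sub_eq_zero_of_le h2]
        simp only [Nat.cast_zero]
        linarith
    have h2 : (0 : ℝ) < (1 / 2) ^ n := by positivity
    have h3 : (2 : ℝ) ^ n * (1 / 2) ^ n = 1 := by rw [← mul_pow]; norm_num
    calc _ ≤ ((b - a) * 2 ^ n + 2) * (2 * (1 / 2) ^ n) := by
            apply mul_le_mul_of_nonneg_right h1 (by positivity)
      _ = 2 * (b - a) * (2 ^ n * (1 / 2) ^ n) + 4 * (1 / 2) ^ n := by ring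
      _ = _ := by rw [h3]; ring
  · have h1 : Tendsto (fun n : ℕ => 2 * (b - a) + 4 * ((1 : ℝ) / 2) ^ n) atTop
        (𝓝 (2 * (b - a) + 4 * 0)) := tendsto_const_nhds.add (tendsto_half.const_mul 4)
    simpa using h1

lemma hausdorff_E_lt_top : μH[1] P.E < ⊤ := by
  have := P.hausdorff_interval P.E le_rfl 0 1 (by norm_num) (by norm_num)
    (fun w _ => ⟨tt_nonneg w, tt_le_one w⟩)
  exact this.trans_lt ENNReal.ofReal_lt_top

lemma hausdorff_ball (w : Code) (ρ : ℝ) (hρ : 0 ≤ ρ) :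
    μH[1] (P.E ∩ Metric.closedBall (P.G w) ρ) ≤ ENNReal.ofReal (16 * ρ) := by
  have := P.hausdorff_interval (P.E ∩ Metric.closedBall (P.G w) ρ) inter_subset_left
    (tt w - 4 * ρ) (tt w + 4 * ρ) (by linarith) (by have := tt_nonneg w; linarith) ?_
  · refine this.trans (ENNReal.ofReal_le_ofReal ?_)
    linarith
  · rintro w' ⟨-, hw'⟩
    rw [Metric.mem_closedBall, dist_eq_norm] at hw'
    have h1 := P.norm_G_sub_ge w' w
    have h2 : |tt w' - tt w| ≤ 4 * ρ := by linarith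
    rw [abs_le] at h2
    constructor <;> linarith

lemma hausdorff_E_pos : 0 < μH[1] P.E := by
  classical
  let h : ℂ → ℝ := fun z => if hz : z ∈ P.E then tt (Classical.choose hz) else 0
  have hG : ∀ w, h (P.G w) = tt w := by
    intro w
    have hz : P.G w ∈ P.E := ⟨w, rfl⟩
    have h1 : h (P.G w) = tt (Classical.choose hz) := by simp only [h]; rw [dif_pos hz]
    have h2 : P.G (Classical.choose hz) = P.G w := Classical.choose_spec hz
    have h3 := P.norm_G_sub_ge (Classical.choose hz) w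
    rw [h2, sub_self, norm_zero] at h3
    have h4 : |tt (Classical.choose hz) - tt w| = 0 := le_antisymm (by linarith) (abs_nonneg _)
    rw [h1]
    linarith [abs_eq_zero.mp h4]
  have hlip : LipschitzOnWith 4 h P.E := by
    apply LipschitzOnWith.of_dist_le_mul
    rintro _ ⟨w, rfl⟩ _ ⟨w', rfl⟩
    rw [hG, hG, Real.dist_eq, dist_eq_norm]
    have := P.norm_G_sub_ge w w'
    show |tt w - tt w'| ≤ 4 * ‖P.G w - P.G w'‖
    linarith
  have h1 := hlip.hausdorffMeasure_image_le (d := 1) (by norm_num)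
  have h2 : Icc (0 : ℝ) 1 ⊆ h '' P.E := by
    intro x hx
    obtain ⟨w, -, hw⟩ := Real.ofDigits_SurjOn (b := 2) (by norm_num) hx
    exact ⟨P.G w, ⟨w, rfl⟩, (hG w).trans hw⟩
  have h3 : (1 : ℝ≥0∞) ≤ μH[1] (h '' P.E) := by
    rw [hausdorffMeasure_real]
    calc (1 : ℝ≥0∞) = volume (Icc (0 : ℝ) 1) := by rw [Real.volume_Icc]; norm_num
      _ ≤ _ := measure_mono h2
  rw [pos_iff_ne_zero]
  intro h0
  rw [h0, mul_zero] at h1
  have := h3.trans h1
  simp at this

end Par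

end Pool.Agent.R21.CD
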