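import Pool.Agent.R21.CD.Basic

/-!
# Metric estimates for the Cantor set
-/

set_option autoImplicit false

open Complex Filter Topology Set
open scoped ComplexConjugate

namespace Pool.Agent.R21.CD

open Par

/-- the parameter of a code -/
noncomputable def tt (w : Code) : ℝ := Real.ofDigits w

lemma tt_nonneg (w : Code) : 0 ≤ tt w := Real.ofDigits_nonneg w

lemma tt_le_one (w : Code) : tt w ≤ 1 := Real.ofDigits_le_one w

lemma tt_eq (w : Code) : tt w = ((w 0 : ℕ) + tt (sh w)) / 2 := by
  unfold tt
  rw [Real.ofDigits_eq_sum_add_ofDigits w 1, show (fun i => w (i + 1)) = sh w from rfl]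
  simp only [Finset.sum_range_one, Real.ofDigitsTerm]
  norm_num
  ring

/-- the iterated shift -/
def shn (n : ℕ) (w : Code) : Code := fun i => w (i + n)

lemma shn_zero (w : Code) : shn 0 w = w := rfl

lemma shn_succ (n : ℕ) (w : Code) : shn (n + 1) w = shn n (sh w) := by
  funext i; simp only [shn, sh]; congr 1; 

lemma shn_succ' (n : ℕ) (w : Code) : shn (n + 1) w = sh (shn n w) := by
  funext i; simp only [shn, sh]; congr 1; ring

/-- the prefix of length `n`, as a number -/
def pref : ℕ → Code → ℕ
  | 0, _ => 0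
  | n + 1, w => 2 * pref n w + (w n : ℕ)

lemma pref_lt (n : ℕ) (w : Code) : pref n w < 2 ^ n := by
  induction n with
  | zero => simp [pref]
  | succ n ih =>
    have := (w n).2
    simp only [pref, pow_succ]
    omega

lemma pref_eq_iff (n : ℕ) (w w' : Code) : pref n w = pref n w' ↔ ∀ i < n, w i = w' i := by
  induction n with
  | zero => simp [pref]
  | succ n ih =>
    have h1 := (w n).2
    have h2 := (w' n).2
    constructor
    · intro h i hi
      simp only [pref] at h
      have h3 : pref n w = pref n w' := by omega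
      have h4 : w n = w' n := by apply Fin.ext; omega
      rcases Nat.lt_succ_iff_lt_or_eq.mp hi with h5 | h5
      · exact ih.mp h3 i h5
      · rw [h5]; exact h4
    · intro h
      simp only [pref]
      rw [ih.mpr (fun i hi => h i (by omega)), h n (by omega)]

lemma pref_add (n m : ℕ) (w : Code) : pref (n + m) w = 2 ^ m * pref n w + pref m (shn n w) := by
  induction m with
  | zero => simp [pref]
  | succ m ih =>
    rw [← add_assoc]
    simp only [pref]
    rw [ih]
    have : shn n w m = w (n + m) := by simp only [shn]; congr 1; ring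
    rw [this]
    ring

lemma tt_pref (n : ℕ) (w : Code) : tt w = (pref n w + tt (shn n w)) / 2 ^ n := by
  induction n with
  | zero => simp [pref, shn_zero]
  | succ n ih =>
    rw [ih, shn_succ', tt_eq (shn n w)]
    simp only [pref]
    have : shn n w 0 = w n := by simp [shn]
    rw [this]
    push_cast
    rw [pow_succ]
    field_simp
    ring

lemma tt_abs (n : ℕ) (w w' : Code) (h : pref n w = pref n w') : |tt w - tt w'| ≤ 1 / 2 ^ n := by
  rw [tt_pref n w, tt_pref n w', h, ← sub_div, abs_div, abs_of_pos (by positivity : (0 : ℝ) < 2 ^ n)]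
  apply div_le_div_of_nonneg_right _ (by positivity)
  rw [abs_le]
  have h1 := tt_nonneg (shn n w)
  have h2 := tt_le_one (shn n w)
  have h3 := tt_nonneg (shn n w')
  have h4 := tt_le_one (shn n w')
  constructor <;> linarith

namespace Par

variable (P : Par)

lemma fin2_cases (b : Fin 2) : b = 0 ∨ b = 1 := by
  fin_cases b
  · left; rfl
  · right; rfl

/-- distance from zero -/
lemma norm_G_ge_aux (n : ℕ) (w : Code) : tt w / 2 - (1 / 2) ^ n ≤ ‖P.G w‖ := by
  induction n generalizing w with
  | zero =>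
    have := tt_le_one w
    have := norm_nonneg (P.G w)
    norm_num
    linarith
  | succ n ih =>
    rw [P.G_eq w, tt_eq w]
    rcases fin2_cases (w 0) with h | h
    · rw [h]
      have h1 : ‖P.f 0 (P.G (sh w))‖ = 1 / 2 * ‖P.G (sh w)‖ := by
        have := P.norm_f_sub 0 (P.G (sh w)) 0
        have h0 : P.f 0 0 = 0 := by simp [f]
        rw [h0, sub_zero, sub_zero] at this
        exact this
      rw [h1]
      have := ih (sh w)
      simp only [Fin.val_zero, Nat.cast_zero, zero_add, pow_succ]
      linarith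
    · rw [h]
      have h1 : 1 / 2 ≤ ‖P.f 1 (P.G (sh w))‖ := by
        have h2 := P.norm_f_sub 1 (P.G (sh w)) 1
        have h0 : P.f 1 1 = 1 := by simp [f]
        rw [h0] at h2
        have h3 := P.norm_one_sub_le (P.G_mem (sh w))
        rw [norm_sub_rev] at h3
        have h4 : ‖(1 : ℂ)‖ ≤ ‖P.f 1 (P.G (sh w))‖ + ‖P.f 1 (P.G (sh w)) - 1‖ := by
          have := norm_sub_le (P.f 1 (P.G (sh w))) (P.f 1 (P.G (sh w)) - 1)
          rwa [sub_sub_cancel] at this
        rw [norm_one] at h4
        linarith
      have h5 := tt_le_one (sh w)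
      have h6 : (0 : ℝ) < (1 / 2) ^ (n + 1) := by positivity
      simp only [Fin.val_one, Nat.cast_one]
      linarith

lemma tendsto_half : Tendsto (fun n : ℕ => ((1 : ℝ) / 2) ^ n) atTop (𝓝 0) :=
  tendsto_pow_atTop_nhds_zero_of_lt_one (by norm_num) (by norm_num)

lemma le_of_half {a b : ℝ} (h : ∀ n : ℕ, a - (1 / 2) ^ n ≤ b) : a ≤ b := by
  have h1 : Tendsto (fun n : ℕ => a - (1 / 2) ^ n) atTop (𝓝 (a - 0)) :=
    tendsto_const_nhds.sub tendsto_half
  rw [sub_zero] at h1
  exact le_of_tendsto' h1 h

lemma norm_G_ge (w : Code) : tt w / 2 ≤ ‖P.G w‖ := le_of_half fun n => P.norm_G_ge_aux n w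

/-- distance from one -/
lemma norm_one_sub_G_ge_aux (n : ℕ) (w : Code) : (1 - tt w) / 2 - (1 / 2) ^ n ≤ ‖1 - P.G w‖ := by
  induction n generalizing w with
  | zero =>
    have := tt_nonneg w
    have := norm_nonneg (1 - P.G w)
    norm_num
    linarith
  | succ n ih =>
    rw [P.G_eq w, tt_eq w]
    rcases fin2_cases (w 0) with h | h
    · rw [h]
      have h1 : 1 / 2 ≤ ‖1 - P.f 0 (P.G (sh w))‖ := by
        have h2 := P.norm_f_sub 0 (P.G (sh w)) 0
        have h0 : P.f 0 0 = 0 := by simp [f]
        rw [h0, sub_zero, sub_zero] at h2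
        have h3 := P.norm_le_one (P.G_mem (sh w))
        have h4 : ‖(1 : ℂ)‖ ≤ ‖1 - P.f 0 (P.G (sh w))‖ + ‖P.f 0 (P.G (sh w))‖ := by
          have := norm_add_le (1 - P.f 0 (P.G (sh w))) (P.f 0 (P.G (sh w)))
          rwa [sub_add_cancel] at this
        rw [norm_one] at h4
        linarith
      have h5 := tt_nonneg (sh w)
      have h6 : (0 : ℝ) < (1 / 2) ^ (n + 1) := by positivity
      simp only [Fin.val_zero, Nat.cast_zero, zero_add]
      linarith
    · rw [h]
      have h1 : ‖1 - P.f 1 (P.G (sh w))‖ = 1 / 2 * ‖1 - P.G (sh w)‖ := by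
        have := P.norm_f_sub 1 1 (P.G (sh w))
        have h0 : P.f 1 1 = 1 := by simp [f]
        rw [h0] at this
        exact this
      rw [h1]
      have := ih (sh w)
      simp only [Fin.val_one, Nat.cast_one, pow_succ]
      linarith

lemma norm_one_sub_G_ge (w : Code) : (1 - tt w) / 2 ≤ ‖1 - P.G w‖ :=
  le_of_half fun n => P.norm_one_sub_G_ge_aux n w

lemma first_diff_re (w w' : Code) (h : w 0 = 0) (h' : w' 0 = 1) :
    (tt w' - tt w) / 4 ≤ (P.G w' - P.G w).re := by
  rw [P.G_eq w, P.G_eq w', tt_eq w, tt_eq w', h, h']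
  have h1 := P.diff_re (P.G_mem (sh w)) (P.G_mem (sh w'))
  have h2 := P.re_ge (P.G_mem (sh w'))
  have h3 := P.one_sub_re_ge (P.G_mem (sh w))
  have h4 := P.norm_G_ge (sh w')
  have h5 := P.norm_one_sub_G_ge (sh w)
  have h6 := P.c_le
  have h7 := tt_nonneg (sh w')
  have h8 := tt_le_one (sh w)
  simp only [Fin.val_zero, Nat.cast_zero, zero_add, Fin.val_one, Nat.cast_one]
  nlinarith

lemma norm_G_sub_ge_aux (n : ℕ) (w w' : Code) :
    |tt w - tt w'| / 4 - (1 / 2) ^ n ≤ ‖P.G w - P.G w'‖ := by
  induction n generalizing w w' with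
  | zero =>
    have h1 := tt_nonneg w
    have h2 := tt_le_one w
    have h3 := tt_nonneg w'
    have h4 := tt_le_one w'
    have h5 : |tt w - tt w'| ≤ 1 := by rw [abs_le]; constructor <;> linarith
    have := norm_nonneg (P.G w - P.G w')
    norm_num
    linarith
  | succ n ih =>
    by_cases h : w 0 = w' 0
    · rw [P.G_eq w, P.G_eq w', tt_eq w, tt_eq w', h, P.norm_f_sub]
      have h1 := ih (sh w) (sh w')
      have h2 : ((w' 0 : ℕ) + tt (sh w)) / 2 - ((w' 0 : ℕ) + tt (sh w')) / 2
          = (tt (sh w) - tt (sh w')) / 2 := by ring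
      rw [h2, abs_div, pow_succ, abs_of_pos (by norm_num : (0 : ℝ) < 2)]
      linarith
    · have h6 : (0 : ℝ) < (1 / 2) ^ (n + 1) := by positivity
      rcases fin2_cases (w 0) with h1 | h1 <;> rcases fin2_cases (w' 0) with h2 | h2
      · exact absurd (h1.trans h2.symm) h
      · have h3 := P.first_diff_re w w' h1 h2
        have h4 : tt w ≤ tt w' := by
          rw [tt_eq w, tt_eq w', h1, h2]
          have h7 := tt_nonneg (sh w')
          have h8 := tt_le_one (sh w)
          simp only [Fin.val_zero, Nat.cast_zero, zero_add, Fin.val_one, Nat.cast_one]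
          linarith
        have h5 := (Complex.re_le_norm (P.G w' - P.G w))
        rw [norm_sub_rev] at h5
        rw [abs_of_nonpos (by linarith)]
        linarith
      · have h3 := P.first_diff_re w' w h2 h1
        have h4 : tt w' ≤ tt w := by
          rw [tt_eq w, tt_eq w', h1, h2]
          have h7 := tt_nonneg (sh w)
          have h8 := tt_le_one (sh w')
          simp only [Fin.val_zero, Nat.cast_zero, zero_add, Fin.val_one, Nat.cast_one]
          linarith
        have h5 := (Complex.re_le_norm (P.G w - P.G w'))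
        rw [abs_of_nonneg (by linarith)]
        linarith
      · exact absurd (h1.trans h2.symm) h

lemma norm_G_sub_ge (w w' : Code) : |tt w - tt w'| / 4 ≤ ‖P.G w - P.G w'‖ :=
  le_of_half fun n => P.norm_G_sub_ge_aux n w w'

lemma norm_G_sub_le_two (w w' : Code) : ‖P.G w - P.G w'‖ ≤ 2 := by
  have h1 := P.norm_le_one (P.G_mem w)
  have h2 := P.norm_le_one (P.G_mem w')
  have := norm_sub_le (P.G w) (P.G w')
  linarith

lemma norm_G_sub_eq (n : ℕ) (w w' : Code) (h : ∀ i < n, w i = w' i) :
    ‖P.G w - P.G w'‖ = (1 / 2) ^ n * ‖P.G (shn n w) - P.G (shn n w')‖ := by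
  induction n generalizing w w' with
  | zero => simp [shn_zero]
  | succ n ih =>
    rw [P.G_eq w, P.G_eq w', h 0 (by omega), P.norm_f_sub,
      ih (sh w) (sh w') (fun i hi => h (i + 1) (by omega)), shn_succ, shn_succ, pow_succ]
    ring

lemma norm_G_sub_le (n : ℕ) (w w' : Code) (h : pref n w = pref n w') :
    ‖P.G w - P.G w'‖ ≤ 2 * (1 / 2) ^ n := by
  rw [P.norm_G_sub_eq n w w' ((pref_eq_iff n w w').mp h)]
  have := P.norm_G_sub_le_two (shn n w) (shn n w')
  have h2 : (0 : ℝ) < (1 / 2) ^ n := by positivity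
  nlinarith

lemma continuous_G : Continuous P.G := by
  rw [continuous_iff_continuousAt]
  intro w
  rw [ContinuousAt, Metric.tendsto_nhds]
  intro ε hε
  obtain ⟨n, hn⟩ := exists_pow_lt_of_lt_one (show 0 < ε / 2 by positivity)
    (show (1 : ℝ) / 2 < 1 by norm_num)
  have h1 : ∀ᶠ w' in 𝓝 w, ∀ i < n, w' i = w i := by
    have : {w' : Code | ∀ i < n, w' i = w i} ∈ 𝓝 w := by
      have h2 : ∀ i ∈ Finset.range n, {w' : Code | w' i = w i} ∈ 𝓝 w := by
        intro i _
        exact (continuous_apply i).continuousAt.preimage_mem_nhds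
          (by simp : ({w i} : Set (Fin 2)) ∈ 𝓝 (w i))
      have h3 := (Filter.biInter_finset_mem (Finset.range n)).mpr h2
      refine Filter.mem_of_superset h3 ?_
      intro w' hw' i hi
      simp only [mem_iInter, mem_ofPred_eq] at hw'
      exact hw' i (Finset.mem_range.mpr hi)
    exact this
  filter_upwards [h1] with w' hw'
  rw [dist_eq_norm]
  have := P.norm_G_sub_le n w' w ((pref_eq_iff n w' w).mpr hw')
  linarith

/-- the set -/
def E : Set ℂ := range P.G

lemma isCompact_E : IsCompact P.E := isCompact_range P.continuous_G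

end Par

end Pool.Agent.R21.CD
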