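import Pool.Agent.R21.CD.Metric

/-!
# Directions of differences in the Cantor set
-/

set_option autoImplicit false

open Complex Filter Topology Set
open scoped ComplexConjugate

namespace Pool.Agent.R21.CD

open Par

/-- conjugation for odd `n` -/
noncomputable def cj (n : ℕ) (z : ℂ) : ℂ := if Even n then z else conj z

lemma cj_zero (z : ℂ) : cj 0 z = z := by simp [cj]

lemma cj_mul (n : ℕ) (z w : ℂ) : cj n (z * w) = cj n z * cj n w := by
  unfold cj; split_ifs
  · rfl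
  · exact map_mul _ _ _

lemma cj_sub (n : ℕ) (z w : ℂ) : cj n (z - w) = cj n z - cj n w := by
  unfold cj; split_ifs
  · rfl
  · exact map_sub _ _ _

lemma cj_one (n : ℕ) : cj n 1 = 1 := by
  unfold cj; split_ifs
  · rfl
  · exact map_one _

lemma cj_two (n : ℕ) : cj n 2 = 2 := by
  unfold cj; split_ifs
  · rfl
  · exact Complex.conj_ofNat _

lemma cj_conj (n : ℕ) (z : ℂ) : cj n (conj z) = cj (n + 1) z := by
  unfold cj
  by_cases h : Even n
  · rw [if_pos h, if_neg (by rw [Nat.even_add_one]; simpa using h)]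
  · rw [if_neg h, if_pos (by rw [Nat.even_add_one]; exact h), Complex.conj_conj]

lemma norm_cj (n : ℕ) (z : ℂ) : ‖cj n z‖ = ‖z‖ := by
  unfold cj; split_ifs
  · rfl
  · exact Complex.norm_conj _

lemma cj_re (n : ℕ) (z : ℂ) : (cj n z).re = z.re := by
  unfold cj; split_ifs
  · rfl
  · exact Complex.conj_re _

namespace Par

variable (P : Par)

lemma norm_two_aa_sub_one (b : Fin 2) : ‖2 * P.aa b - 1‖ ≤ 3 / 2 * P.s := by
  have h := P.norm_e_sub_one
  unfold aa
  split_ifs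
  · rw [mul_div_cancel₀ _ (by norm_num : (2 : ℂ) ≠ 0)]
    exact h
  · rw [mul_div_cancel₀ _ (by norm_num : (2 : ℂ) ≠ 0)]
    have : conj P.e - 1 = conj (P.e - 1) := by rw [map_sub, map_one]
    rw [this, Complex.norm_conj]
    exact h

/-- the direction of a piece -/
noncomputable def U : ℕ → Code → ℂ
  | 0, _ => 1
  | n + 1, w => U n w * cj n (2 * P.aa (w n))

lemma norm_U (n : ℕ) (w : Code) : ‖P.U n w‖ = 1 := by
  induction n with
  | zero => simp [U]
  | succ n ih =>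
    simp only [U]
    rw [norm_mul, ih, norm_cj, norm_mul, P.norm_aa]
    norm_num

lemma U_step (n : ℕ) (w : Code) : ‖P.U (n + 1) w - P.U n w‖ ≤ 3 / 2 * P.s := by
  simp only [U]
  have : P.U n w * cj n (2 * P.aa (w n)) - P.U n w
      = P.U n w * cj n (2 * P.aa (w n) - 1) := by
    rw [cj_sub, cj_one]; ring
  rw [this, norm_mul, P.norm_U, norm_cj, one_mul]
  exact P.norm_two_aa_sub_one _

lemma U_steps (n k : ℕ) (w : Code) : ‖P.U (n + k) w - P.U n w‖ ≤ 3 / 2 * P.s * k := by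
  induction k with
  | zero => simp
  | succ k ih =>
    have h1 := P.U_step (n + k) w
    have h2 := norm_add_le (P.U (n + k + 1) w - P.U (n + k) w) (P.U (n + k) w - P.U n w)
    rw [sub_add_sub_cancel] at h2
    rw [← add_assoc]
    push_cast
    linarith

lemma G_sub (n : ℕ) (w w' : Code) (h : ∀ i < n, w i = w' i) :
    P.G w - P.G w' = (1 / 2) ^ n * (P.U n w * cj n (P.G (shn n w) - P.G (shn n w'))) := by
  induction n with
  | zero => simp [U, cj_zero, shn_zero]
  | succ n ih =>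
    rw [ih (fun i hi => h i (by omega)), P.G_eq (shn n w), P.G_eq (shn n w'), ← shn_succ',
      ← shn_succ']
    have h1 : shn n w 0 = w n := by simp [shn]
    have h2 : shn n w' 0 = w n := by simp only [shn, zero_add]; exact (h n (by omega)).symm
    rw [h1, h2, P.f_sub]
    simp only [U]
    rw [cj_mul, cj_mul, cj_conj, cj_two, pow_succ]
    ring

/-- the difference of two codes with different first digit -/
lemma first_diff (v v' : Code) (h : v 0 ≠ v' 0) :
    1 - P.c ≤ |(P.G v - P.G v').re| ∧ |(P.G v - P.G v').im| ≤ 4 * P.s * |(P.G v - P.G v').re| := by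
  have key : ∀ v v' : Code, v 0 = 1 → v' 0 = 0 →
      1 - P.c ≤ |(P.G v - P.G v').re| ∧
      |(P.G v - P.G v').im| ≤ 4 * P.s * |(P.G v - P.G v').re| := by
    intro v v' h1 h2
    have h3 := P.diff_re (P.G_mem (sh v')) (P.G_mem (sh v))
    have h4 := P.diff_im_le (P.G_mem (sh v')) (P.G_mem (sh v))
    rw [P.G_eq v, P.G_eq v', h1, h2]
    obtain ⟨a1, a2⟩ := P.T_re (P.G_mem (sh v'))
    obtain ⟨b1, b2⟩ := P.T_re (P.G_mem (sh v))
    have h5 := P.c_le
    have h6 : 1 - P.c ≤ (P.f 1 (P.G (sh v)) - P.f 0 (P.G (sh v'))).re := by linarith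
    rw [abs_of_nonneg (show 0 ≤ (P.f 1 (P.G (sh v)) - P.f 0 (P.G (sh v'))).re by linarith)]
    exact ⟨h6, h4⟩
  rcases fin2_cases (v 0) with h1 | h1 <;> rcases fin2_cases (v' 0) with h2 | h2
  · exact absurd (h1.trans h2.symm) h
  · have := key v' v h2 h1
    rw [← neg_sub (P.G v') (P.G v), Complex.neg_re, Complex.neg_im, abs_neg, abs_neg]
    exact this
  · exact key v v' h1 h2
  · exact absurd (h1.trans h2.symm) h

lemma cone_main (α ε r : ℝ) (hε : 0 < ε) (hr : 0 < r)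
    (hN : ∀ N : ℕ, (2 : ℝ) ^ N < 4 / (ε * P.s ^ 2) → 4 * P.s + 3 / 2 * P.s * N ≤ 1 - α) (w : Code) :
    ∃ u : ℂ, ‖u‖ = 1 ∧ ∀ w' : Code, ε * r < ‖P.G w' - P.G w‖ → ‖P.G w' - P.G w‖ ≤ r →
      α * ‖P.G w' - P.G w‖ ≤ |(conj u * (P.G w' - P.G w)).re| := by
  classical
  have hs := P.hs
  have hsc := P.one_sub_c
  have hs2 : 0 < P.s ^ 2 := by positivity
  have hex : ∃ m : ℕ, (1 / 2 : ℝ) ^ m * (1 - P.c) ≤ r := by
    have h1 : Tendsto (fun m : ℕ => (1 / 2 : ℝ) ^ m * (1 - P.c)) atTop (𝓝 (0 * (1 - P.c))) :=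
      tendsto_half.mul_const _
    rw [zero_mul] at h1
    exact ((h1.eventually (gt_mem_nhds hr)).exists).imp fun m hm => le_of_lt hm
  set m0 := Nat.find hex with hm0
  have hm0r : (1 / 2 : ℝ) ^ m0 * (1 - P.c) ≤ r := Nat.find_spec hex
  refine ⟨P.U m0 w, P.norm_U m0 w, ?_⟩
  intro w' h1 h2
  have hne : ∃ i, w' i ≠ w i := by
    by_contra hcon
    push Not at hcon
    have : w' = w := funext hcon
    rw [this, sub_self, norm_zero] at h1
    have : 0 < ε * r := by positivity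
    linarith
  set m := Nat.find hne with hm
  have hm1 : w' m ≠ w m := Nat.find_spec hne
  have hm2 : ∀ i < m, w' i = w i := by
    intro i hi
    by_contra hcon
    exact Nat.find_min hne hi hcon
  set D := P.G (shn m w') - P.G (shn m w) with hD
  have hD1 := P.first_diff (shn m w') (shn m w) (by simpa [shn] using hm1)
  rw [← hD] at hD1
  have hD2 : ‖D‖ ≤ 2 := P.norm_G_sub_le_two _ _
  set ζ := P.G w' - P.G w with hζ
  have hζ1 : ζ = (1 / 2) ^ m * (P.U m w' * cj m D) := P.G_sub m w' w hm2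
  have hp : (0 : ℝ) < (1 / 2) ^ m := by positivity
  have hζ2 : ‖ζ‖ = (1 / 2) ^ m * ‖D‖ := by
    rw [hζ1, norm_mul, norm_mul, P.norm_U, norm_cj, norm_pow, one_mul]
    norm_num
  -- the level
  have hle : m0 ≤ m := by
    apply Nat.find_min' hex
    have h3 : 1 - P.c ≤ ‖D‖ := hD1.1.trans (Complex.abs_re_le_norm D)
    have h4 : (1 / 2 : ℝ) ^ m * (1 - P.c) ≤ (1 / 2) ^ m * ‖D‖ := mul_le_mul_of_nonneg_left h3 hp.le
    linarith
  obtain ⟨N, hN'⟩ := Nat.exists_eq_add_of_le hle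
  have hUeq : P.U m w' = P.U m w := by
    have : ∀ n ≤ m, P.U n w' = P.U n w := by
      intro n
      induction n with
      | zero => intro _; rfl
      | succ n ih =>
        intro hn
        simp only [U]
        rw [ih (by omega), hm2 n (by omega)]
    exact this m le_rfl
  have hNlt : (2 : ℝ) ^ N < 4 / (ε * P.s ^ 2) := by
    rw [lt_div_iff₀ (by positivity)]
    have h3 : ε * ((1 / 2 : ℝ) ^ m0 * (1 - P.c)) < (1 / 2) ^ m * 2 := by
      calc ε * ((1 / 2 : ℝ) ^ m0 * (1 - P.c)) ≤ ε * r := mul_le_mul_of_nonneg_left hm0r hε.le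
        _ < ‖ζ‖ := h1
        _ = (1 / 2) ^ m * ‖D‖ := hζ2
        _ ≤ _ := mul_le_mul_of_nonneg_left hD2 hp.le
    rw [hN', pow_add] at h3
    have h4 : (0 : ℝ) < (1 / 2) ^ m0 := by positivity
    have h5 : ε * (1 - P.c) < (1 / 2) ^ N * 2 := by
      have : (1 / 2 : ℝ) ^ m0 * (ε * (1 - P.c)) < (1 / 2) ^ m0 * ((1 / 2) ^ N * 2) := by linarith
      exact lt_of_mul_lt_mul_left this h4.le
    have h6 : (0 : ℝ) < 2 ^ N := by positivity
    have h7 : (2 : ℝ) ^ N * (1 / 2) ^ N = 1 := by rw [← mul_pow]; norm_num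
    have h8 : (2 : ℝ) ^ N * (ε * (1 - P.c)) < 2 ^ N * ((1 / 2) ^ N * 2) :=
      mul_lt_mul_of_pos_left h5 h6
    have h9 : (2 : ℝ) ^ N * (ε * (P.s ^ 2 / 2)) ≤ 2 ^ N * (ε * (1 - P.c)) := by
      apply mul_le_mul_of_nonneg_left _ h6.le
      exact mul_le_mul_of_nonneg_left hsc hε.le
    have h10 : (2 : ℝ) ^ N * ((1 / 2) ^ N * 2) = 2 := by rw [← mul_assoc, h7]; norm_num
    linarith
  have hNb := hN N hNlt
  -- the direction
  have hU1 : conj (P.U m w) * P.U m w = 1 := by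
    rw [mul_comm, Complex.mul_conj, Complex.normSq_eq_norm_sq, P.norm_U]; norm_num
  have h3 : conj (P.U m w) * ζ = (((1 / 2 : ℝ) ^ m : ℝ) : ℂ) * cj m D := by
    rw [hζ1, hUeq]
    push_cast
    calc conj (P.U m w) * ((1 / 2) ^ m * (P.U m w * cj m D))
        = (conj (P.U m w) * P.U m w) * ((1 / 2) ^ m * cj m D) := by ring
      _ = _ := by rw [hU1, one_mul]
  have h4 : (conj (P.U m w) * ζ).re = (1 / 2 : ℝ) ^ m * D.re := by
    rw [h3, Complex.re_ofReal_mul, cj_re]
  have h5 : ‖D‖ ≤ |D.re| + |D.im| := Complex.norm_le_abs_re_add_abs_im D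
  have h6 : |D.im| ≤ 4 * P.s * ‖D‖ := by
    refine hD1.2.trans ?_
    exact mul_le_mul_of_nonneg_left (Complex.abs_re_le_norm D) (by positivity)
  have h7 : (1 - 4 * P.s) * ‖ζ‖ ≤ |(conj (P.U m w) * ζ).re| := by
    rw [h4, abs_mul, abs_of_pos hp, hζ2]
    have : (1 - 4 * P.s) * ‖D‖ ≤ |D.re| := by linarith
    have := mul_le_mul_of_nonneg_left this hp.le
    linarith
  have h8 : (conj (P.U m0 w) * ζ).re
      = (conj (P.U m w) * ζ).re - (conj (P.U m w - P.U m0 w) * ζ).re := by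
    rw [← Complex.sub_re, map_sub]; congr 1; ring
  have h9 : |(conj (P.U m w - P.U m0 w) * ζ).re| ≤ 3 / 2 * P.s * N * ‖ζ‖ := by
    refine (Complex.abs_re_le_norm _).trans ?_
    rw [norm_mul, Complex.norm_conj]
    apply mul_le_mul_of_nonneg_right _ (norm_nonneg _)
    rw [hN']
    exact P.U_steps m0 N w
  have h10 : |(conj (P.U m w) * ζ).re| - |(conj (P.U m w - P.U m0 w) * ζ).re|
      ≤ |(conj (P.U m0 w) * ζ).re| := by
    rw [h8]; exact abs_sub_abs_le_abs_sub _ _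
  have h11 : 0 ≤ ‖ζ‖ := norm_nonneg _
  have h12 : α * ‖ζ‖ ≤ (1 - 4 * P.s - 3 / 2 * P.s * N) * ‖ζ‖ :=
    mul_le_mul_of_nonneg_right (by linarith) h11
  linarith

end Par

end Pool.Agent.R21.CD
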