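import Pool.Agent.R21.CD.Meas
import Pool.Agent.R21.CD.Rot

/-!
# Pure unrectifiability of the Cantor set
-/

set_option autoImplicit false

open Complex Filter Topology Set MeasureTheory Measure
open scoped ComplexConjugate ENNReal NNReal

namespace Pool.Agent.R21.CD

open Par

/-- the differences of points of `A` lie in a thin double cone -/
def Thin (A : Set ℂ) (γ : ℝ) : Prop :=
  ∃ u : ℂ, ‖u‖ = 1 ∧ ∀ x ∈ A, ∀ y ∈ A, |(conj u * (x - y)).im| ≤ γ * ‖x - y‖

lemma cj_cj (n : ℕ) (z : ℂ) : cj n (cj n z) = z := by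
  unfold cj; split_ifs
  · rfl
  · exact Complex.conj_conj z

lemma abs_cj_im (n : ℕ) (z : ℂ) : |(cj n z).im| = |z.im| := by
  unfold cj; split_ifs
  · rfl
  · rw [Complex.conj_im, abs_neg]

/-- four special codes -/
def c00 : Code := fun _ => 0
/-- second special code -/
def c01 : Code := fun i => if i = 0 then 0 else 1
/-- third special code -/
def c10 : Code := fun i => if i = 0 then 1 else 0
/-- fourth special code -/
def c11 : Code := fun _ => 1

namespace Par

variable (P : Par)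

lemma f_zero_zero : P.f 0 0 = 0 := by simp [f]
lemma f_one_one : P.f 1 1 = 1 := by simp [f]

lemma G_c00 : P.G c00 = 0 := by
  have h1 := P.G_eq c00
  have h2 := P.norm_f_sub 0 (P.G c00) 0
  rw [P.f_zero_zero, sub_zero, sub_zero] at h2
  have h3 : P.f 0 (P.G c00) = P.G c00 := h1.symm
  rw [h3] at h2
  have h4 : ‖P.G c00‖ = 0 := by linarith
  exact norm_eq_zero.mp h4

lemma G_c11 : P.G c11 = 1 := by
  have h1 := P.G_eq c11
  have h2 := P.norm_f_sub 1 (P.G c11) 1
  rw [P.f_one_one] at h2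
  have h3 : P.f 1 (P.G c11) = P.G c11 := h1.symm
  rw [h3] at h2
  have h4 : ‖P.G c11 - 1‖ = 0 := by linarith
  exact sub_eq_zero.mp (norm_eq_zero.mp h4)

lemma G_c01 : P.G c01 = P.e / 2 := by
  have h1 := P.G_eq c01
  have h2 : sh c01 = c11 := by funext i; simp [sh, c01, c11]
  have h3 : c01 0 = 0 := by simp [c01]
  rw [h2, h3, P.G_c11] at h1
  rw [h1]; simp [f]

lemma G_c10 : P.G c10 = 1 - conj P.e / 2 := by
  have h1 := P.G_eq c10
  have h2 : sh c10 = c00 := by funext i; simp [sh, c10, c00]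
  have h3 : c10 0 = 1 := by simp [c10]
  rw [h2, h3, P.G_c00] at h1
  rw [h1]; simp [f]

lemma U_congr (n : ℕ) (w w' : Code) (h : pref n w = pref n w') : P.U n w = P.U n w' := by
  have h' := (pref_eq_iff n w w').mp h
  have : ∀ k ≤ n, P.U k w = P.U k w' := by
    intro k
    induction k with
    | zero => intro _; rfl
    | succ k ih =>
      intro hn
      simp only [U]
      rw [ih (by omega), h' k (by omega)]
  exact this n le_rfl

lemma missing (A : Set ℂ) (γ : ℝ) (hγ0 : 0 ≤ γ) (hγ1 : γ ≤ 1) (hγ : Thin A γ) (m : ℕ)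
    (hm : γ + 16 * (1 / 2) ^ m < P.s * P.c) (n b : ℕ) :
    ∃ r < 2 ^ m, ∀ w, P.G w ∈ A → pref n w = b → pref m (shn n w) ≠ r := by
  obtain ⟨u, hu, hthin⟩ := hγ
  by_contra hcon
  push Not at hcon
  obtain ⟨w0, a0, b0, d0⟩ := hcon (pref m c00) (pref_lt m _)
  obtain ⟨w1, a1, b1, d1⟩ := hcon (pref m c01) (pref_lt m _)
  obtain ⟨w2, a2, b2, d2⟩ := hcon (pref m c10) (pref_lt m _)
  obtain ⟨w3, a3, b3, d3⟩ := hcon (pref m c11) (pref_lt m _)
  set q : ℝ := (1 / 2) ^ m with hq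
  have hqp : 0 < q := by positivity
  have e0 := P.norm_G_sub_le m _ _ d0
  have e1 := P.norm_G_sub_le m _ _ d1
  have e2 := P.norm_G_sub_le m _ _ d2
  have e3 := P.norm_G_sub_le m _ _ d3
  rw [P.G_c00, sub_zero] at e0
  rw [P.G_c01] at e1
  rw [P.G_c10] at e2
  rw [P.G_c11] at e3
  set v : ℂ := cj n (conj u * P.U n w1) with hv
  have hv1 : ‖v‖ = 1 := by rw [hv, norm_cj, norm_mul, Complex.norm_conj, hu, P.norm_U]; norm_num
  -- transfer of the cone condition to the model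
  have key : ∀ x y : Code, P.G x ∈ A → P.G y ∈ A → pref n x = b → pref n y = b →
      |(v * (P.G (shn n x) - P.G (shn n y))).im| ≤ γ * ‖P.G (shn n x) - P.G (shn n y)‖ := by
    intro x y hx hy hxb hyb
    have h1 := hthin _ hx _ hy
    rw [P.G_sub n x y ((pref_eq_iff n x y).mp (hxb.trans hyb.symm))] at h1
    rw [P.U_congr n x w1 (hxb.trans b1.symm)] at h1
    set z := P.G (shn n x) - P.G (shn n y) with hz
    have hp : (0 : ℝ) < (1 / 2) ^ n := by positivity
    have h2 : conj u * ((1 / 2) ^ n * (P.U n w1 * cj n z))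
        = (((1 / 2 : ℝ) ^ n : ℝ) : ℂ) * cj n (v * z) := by
      rw [cj_mul, hv, cj_cj]; push_cast; ring
    have h3 : ‖(1 / 2 : ℂ) ^ n * (P.U n w1 * cj n z)‖ = (1 / 2) ^ n * ‖z‖ := by
      rw [norm_mul, norm_mul, P.norm_U, norm_cj, norm_pow, one_mul]; norm_num
    rw [h2, h3, Complex.im_ofReal_mul, abs_mul, abs_cj_im, abs_of_pos hp] at h1
    have h4 : (1 / 2 : ℝ) ^ n * |(v * z).im| ≤ (1 / 2) ^ n * (γ * ‖z‖) := by linarith
    exact le_of_mul_le_mul_left h4 hp
  have k1 := key w1 w0 a1 a0 b1 b0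
  have k2 := key w3 w2 a3 a2 b3 b2
  -- estimate
  have est : ∀ z g : ℂ, ‖z - g / 2‖ ≤ 4 * q → ‖g‖ = 1 → |(v * z).im| ≤ γ * ‖z‖ →
      |(v * g).im| ≤ γ + 16 * q := by
    intro z g h1 h2 h3
    have h4 : (v * g).im = 2 * (v * z).im - 2 * (v * (z - g / 2)).im := by
      have : v * g = 2 * (v * z) - 2 * (v * (z - g / 2)) := by ring
      rw [this, Complex.sub_im]
      have h5 : ∀ y : ℂ, (2 * y).im = 2 * y.im := by
        intro y
        rw [show (2 : ℂ) = ((2 : ℝ) : ℂ) by norm_num, Complex.im_ofReal_mul]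
      rw [h5, h5]
    have h5 : |(v * (z - g / 2)).im| ≤ 4 * q := by
      refine (Complex.abs_im_le_norm _).trans ?_
      rw [norm_mul, hv1, one_mul]; exact h1
    have h6 : ‖z‖ ≤ 4 * q + 1 / 2 := by
      have h7 := norm_add_le (z - g / 2) (g / 2)
      rw [sub_add_cancel, norm_div, h2] at h7
      have : ‖(2 : ℂ)‖ = 2 := by norm_num
      rw [this] at h7
      linarith
    have h8 : γ * ‖z‖ ≤ γ * (4 * q + 1 / 2) := mul_le_mul_of_nonneg_left h6 hγ0
    have h9 : γ * (4 * q) ≤ 1 * (4 * q) := mul_le_mul_of_nonneg_right hγ1 (by positivity)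
    rw [h4]
    have h7 := abs_sub (2 * (v * z).im) (2 * (v * (z - g / 2)).im)
    rw [abs_mul, abs_mul, abs_of_pos (by norm_num : (0 : ℝ) < 2)] at h7
    linarith
  have z1 : ‖P.G (shn n w1) - P.G (shn n w0) - P.e / 2‖ ≤ 4 * q := by
    have h1 := norm_sub_le (P.G (shn n w1) - P.e / 2) (P.G (shn n w0))
    have h2 : P.G (shn n w1) - P.G (shn n w0) - P.e / 2
        = P.G (shn n w1) - P.e / 2 - P.G (shn n w0) := by ring
    rw [h2]; linarith
  have z2 : ‖P.G (shn n w3) - P.G (shn n w2) - conj P.e / 2‖ ≤ 4 * q := by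
    have h1 := norm_sub_le (P.G (shn n w3) - 1) (P.G (shn n w2) - (1 - conj P.e / 2))
    have h2 : P.G (shn n w3) - P.G (shn n w2) - conj P.e / 2
        = P.G (shn n w3) - 1 - (P.G (shn n w2) - (1 - conj P.e / 2)) := by ring
    rw [h2]; linarith
  have l1 := est _ _ z1 P.norm_e k1
  have l2 := est _ _ z2 (by rw [Complex.norm_conj, P.norm_e]) k2
  have m1 : (v * P.e).im = v.re * P.s + v.im * P.c := by
    rw [Complex.mul_im]; rfl
  have m2 : (v * conj P.e).im = -(v.re * P.s) + v.im * P.c := by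
    rw [Complex.mul_im, Complex.conj_re, Complex.conj_im]
    show v.re * (-P.s) + v.im * P.c = _
    ring
  rw [m1, abs_le] at l1
  rw [m2, abs_le] at l2
  have hv2 : v.re ^ 2 + v.im ^ 2 = 1 := by
    have := Complex.sq_norm v
    rw [hv1, Complex.normSq_apply] at this
    linarith
  set δ := γ + 16 * q with hδ
  have hδ0 : 0 < δ := by positivity
  have hs := P.hs
  have hc := P.hc
  have hs4 := P.hs4
  have hc1 := P.c_le
  have n1 : (v.re * P.s + v.im * P.c) ^ 2 ≤ δ ^ 2 := by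
    rw [← sq_abs (v.re * P.s + v.im * P.c)]
    exact pow_le_pow_left₀ (abs_nonneg _) (abs_le.mpr l1) 2
  have n2 : (-(v.re * P.s) + v.im * P.c) ^ 2 ≤ δ ^ 2 := by
    rw [← sq_abs (-(v.re * P.s) + v.im * P.c)]
    exact pow_le_pow_left₀ (abs_nonneg _) (abs_le.mpr l2) 2
  have n3 : v.re ^ 2 * P.s ^ 2 + v.im ^ 2 * P.c ^ 2 ≤ δ ^ 2 := by nlinarith
  have n4 : δ ^ 2 < (P.s * P.c) ^ 2 := pow_lt_pow_left₀ hm hδ0.le (by norm_num)
  have n5 : v.re ^ 2 * (P.s ^ 2 * P.c ^ 2) ≤ v.re ^ 2 * P.s ^ 2 := by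
    apply mul_le_mul_of_nonneg_left _ (sq_nonneg _)
    have : P.c ^ 2 ≤ 1 := by nlinarith
    nlinarith [sq_nonneg P.s]
  have n6 : v.im ^ 2 * (P.s ^ 2 * P.c ^ 2) ≤ v.im ^ 2 * P.c ^ 2 := by
    apply mul_le_mul_of_nonneg_left _ (sq_nonneg _)
    have : P.s ^ 2 ≤ 1 := by nlinarith
    nlinarith [sq_nonneg P.c]
  have n7 : (v.re ^ 2 + v.im ^ 2) * (P.s ^ 2 * P.c ^ 2) = (P.s * P.c) ^ 2 := by rw [hv2]; ring
  linarith

open Classical in
/-- prefixes which are hit by `A` -/
noncomputable def H (A : Set ℂ) (n : ℕ) : Finset ℕ :=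
  (Finset.range (2 ^ n)).filter (fun a => ∃ w, P.G w ∈ A ∧ pref n w = a)

lemma mem_H (A : Set ℂ) (n : ℕ) (w : Code) (h : P.G w ∈ A) : pref n w ∈ P.H A n := by
  classical
  unfold H
  rw [Finset.mem_filter, Finset.mem_range]
  exact ⟨pref_lt n w, w, h, rfl⟩

lemma card_H_step (A : Set ℂ) (m : ℕ)
    (hmiss : ∀ n b : ℕ, ∃ r < 2 ^ m, ∀ w, P.G w ∈ A → pref n w = b → pref m (shn n w) ≠ r)
    (n : ℕ) : (P.H A (n + m)).card ≤ (P.H A n).card * (2 ^ m - 1) := by
  classical
  choose r hr1 hr2 using hmiss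
  have hsub : P.H A (n + m) ⊆ (P.H A n).biUnion
      (fun b => ((Finset.range (2 ^ m)).erase (r n b)).image (fun k => 2 ^ m * b + k)) := by
    intro a ha
    unfold H at ha
    rw [Finset.mem_filter] at ha
    obtain ⟨-, w, hw, rfl⟩ := ha
    rw [Finset.mem_biUnion]
    refine ⟨pref n w, P.mem_H A n w hw, ?_⟩
    rw [Finset.mem_image]
    refine ⟨pref m (shn n w), ?_, (pref_add n m w).symm⟩
    rw [Finset.mem_erase, Finset.mem_range]
    exact ⟨hr2 n (pref n w) w hw rfl, pref_lt m _⟩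
  refine (Finset.card_le_card hsub).trans ?_
  apply Finset.card_biUnion_le_card_mul
  intro b _
  refine Finset.card_image_le.trans ?_
  rw [Finset.card_erase_of_mem (Finset.mem_range.mpr (hr1 n b)), Finset.card_range]

lemma null_of_thin (A : Set ℂ) (hA : A ⊆ P.E) (γ : ℝ) (hγ0 : 0 ≤ γ) (hγ1 : γ ≤ 1)
    (hγ : Thin A γ) (hγs : γ < P.s * P.c) : μH[1] A = 0 := by
  obtain ⟨m, hm⟩ : ∃ m : ℕ, (1 / 2 : ℝ) ^ m < (P.s * P.c - γ) / 16 := by
    have h0 : 0 < (P.s * P.c - γ) / 16 := by linarith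
    exact exists_pow_lt_of_lt_one h0 (by norm_num)
  have hm' : γ + 16 * (1 / 2) ^ (m + 1) < P.s * P.c := by
    have h1 : (1 / 2 : ℝ) ^ (m + 1) ≤ (1 / 2) ^ m := by
      rw [pow_succ]
      have : (0 : ℝ) < (1 / 2) ^ m := by positivity
      linarith
    linarith
  set M := m + 1 with hM
  have hstep := P.card_H_step A M (fun n b => P.missing A γ hγ0 hγ1 hγ M hm' n b)
  have hcard : ∀ j : ℕ, (P.H A (M * j)).card ≤ (2 ^ M - 1) ^ j := by
    intro j
    induction j with
    | zero =>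
      rw [mul_zero, pow_zero]
      unfold H
      classical
      refine (Finset.card_filter_le _ _).trans ?_
      simp
    | succ j ih =>
      rw [mul_add, mul_one, pow_succ]
      exact (hstep (M * j)).trans (Nat.mul_le_mul_right _ ih)
  have h2M : (1 : ℝ) ≤ 2 ^ M := one_le_pow₀ (by norm_num)
  have h2Mp : (0 : ℝ) < 2 ^ M := by positivity
  have key := P.hausdorff_le A hA (fun j => M * j) ?_ (fun j => P.H A (M * j))
    (fun j w hw => P.mem_H A _ w hw) (fun j => 2 * ((2 ^ M - 1) / 2 ^ M) ^ j) 0 ?_ ?_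
  · rw [ENNReal.ofReal_zero] at key
    exact le_antisymm key (zero_le)
  · exact tendsto_id.const_mul_atTop' (by omega)
  · intro j
    have h1 : ((P.H A (M * j)).card : ℝ) ≤ (2 ^ M - 1) ^ j := by
      have h3 : ((P.H A (M * j)).card : ℝ) ≤ (((2 ^ M - 1) ^ j : ℕ) : ℝ) := by
        exact_mod_cast hcard j
      rw [Nat.cast_pow, Nat.cast_sub Nat.one_le_two_pow] at h3
      push_cast at h3
      exact h3
    have h4 : (0 : ℝ) < (2 ^ M) ^ j := by positivity
    have h5 : (1 / 2 : ℝ) ^ (M * j) = 1 / (2 ^ M) ^ j := by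
      rw [pow_mul, div_pow, one_pow, div_pow, one_pow]
    rw [h5, div_pow]
    calc ((P.H A (M * j)).card : ℝ) * (2 * (1 / (2 ^ M) ^ j))
        ≤ (2 ^ M - 1) ^ j * (2 * (1 / (2 ^ M) ^ j)) := by
          apply mul_le_mul_of_nonneg_right h1 (by positivity)
      _ = _ := by ring
  · have h1 : Tendsto (fun j : ℕ => 2 * (((2 : ℝ) ^ M - 1) / 2 ^ M) ^ j) atTop (𝓝 (2 * 0)) := by
      apply Tendsto.const_mul
      apply tendsto_pow_atTop_nhds_zero_of_lt_one
      · apply div_nonneg (by linarith) h2Mp.le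
      · rw [div_lt_one h2Mp]; linarith
    rwa [mul_zero] at h1

end Par

lemma thin_of_approx (f : ℝ → ℂ) (A : ℝ →L[ℝ] ℂ) (S : Set ℝ) (η : ℝ≥0) (hη : (η : ℝ) ≤ 1 / 2)
    (hA : A 1 ≠ 0) (h : ApproximatesLinearOn f A S (η * ‖A 1‖₊)) : Thin (f '' S) (2 * η) := by
  have hn : 0 < ‖A 1‖ := norm_pos_iff.mpr hA
  refine ⟨A 1 / ‖A 1‖, ?_, ?_⟩
  · rw [norm_div, Complex.norm_real, norm_norm, div_self hn.ne']
  · rintro _ ⟨x, hx, rfl⟩ _ ⟨y, hy, rfl⟩
    have h1 := h x hx y hy
    have h2 : A (x - y) = ((x - y : ℝ) : ℂ) * A 1 := by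
      have : A (x - y) = A ((x - y) • (1 : ℝ)) := by rw [smul_eq_mul, mul_one]
      rw [this, map_smul, Complex.real_smul]
    rw [h2] at h1
    set ζ := f x - f y with hζ
    set u : ℂ := A 1 / ‖A 1‖ with hu
    have hu1 : ‖u‖ = 1 := by rw [hu, norm_div, Complex.norm_real, norm_norm, div_self hn.ne']
    have hur : conj u * A 1 = (‖A 1‖ : ℂ) := by
      rw [hu, map_div₀, Complex.conj_ofReal, div_mul_eq_mul_div, mul_comm, Complex.mul_conj,
        Complex.normSq_eq_norm_sq]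
      push_cast
      rw [pow_two, mul_div_assoc, div_self (by exact_mod_cast hn.ne'), mul_one]
    have h1' : ‖ζ - ((x - y : ℝ) : ℂ) * A 1‖ ≤ η * ‖A 1‖ * |x - y| := by
      have := h1
      rw [Real.norm_eq_abs] at this
      simpa using this
    have h3 : (conj u * ζ).im = (conj u * (ζ - ((x - y : ℝ) : ℂ) * A 1)).im := by
      have h8 : conj u * (((x - y : ℝ) : ℂ) * A 1) = (((x - y) * ‖A 1‖ : ℝ) : ℂ) := by
        rw [mul_left_comm, hur]; push_cast; ring
      rw [mul_sub (conj u) ζ, Complex.sub_im, h8, Complex.ofReal_im, sub_zero]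
    have h4 : |(conj u * ζ).im| ≤ η * ‖A 1‖ * |x - y| := by
      rw [h3]
      refine (Complex.abs_im_le_norm _).trans ?_
      rw [norm_mul, Complex.norm_conj, hu1, one_mul]
      exact h1'
    have h5 : ‖A 1‖ * |x - y| ≤ 2 * ‖ζ‖ := by
      have h6 := norm_sub_le ζ (ζ - ((x - y : ℝ) : ℂ) * A 1)
      rw [sub_sub_cancel, norm_mul, Complex.norm_real, Real.norm_eq_abs] at h6
      have h7 : η * ‖A 1‖ * |x - y| ≤ 1 / 2 * (‖A 1‖ * |x - y|) := by
        rw [mul_assoc]
        exact mul_le_mul_of_nonneg_right hη (by positivity)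
      linarith
    have h6 : (η : ℝ) * (‖A 1‖ * |x - y|) ≤ η * (2 * ‖ζ‖) :=
      mul_le_mul_of_nonneg_left h5 η.2
    linarith

lemma Thin.mono {A B : Set ℂ} {γ : ℝ} (h : Thin B γ) (hAB : A ⊆ B) : Thin A γ := by
  obtain ⟨u, hu, h1⟩ := h
  exact ⟨u, hu, fun x hx y hy => h1 x (hAB hx) y (hAB hy)⟩

namespace Par

variable (P : Par)

lemma null_diff (f : ℝ → ℂ) (s : Set ℝ) (R : ℝ) (hsR : s ⊆ Icc (-R) R)
    (hs : ∀ x ∈ s, DifferentiableAt ℝ f x) : μH[1] (P.E ∩ f '' s) = 0 := by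
  by_contra h0
  have hV : volume (Icc (-R) R) ≠ ⊤ := by rw [Real.volume_Icc]; exact ENNReal.ofReal_ne_top
  obtain ⟨δ, hδ, hδ2⟩ := ENNReal.exists_nnreal_pos_mul_lt hV h0
  have hsc : 0 < P.s * P.c := mul_pos P.hs P.hc
  have hsc1 : P.s * P.c ≤ 1 := by
    have := P.hs4; have := P.c_le; have := P.hs; have := P.hc
    nlinarith
  set η : ℝ≥0 := ⟨P.s * P.c / 4, by positivity⟩ with hη
  have hηv : (η : ℝ) = P.s * P.c / 4 := rfl
  have hηpos : η ≠ 0 := by
    intro h
    have : (η : ℝ) = 0 := by rw [h]; rfl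
    linarith
  classical
  obtain ⟨t, A, hdisj, hmeas, hcov, happ, -⟩ :=
    exists_partition_approximatesLinearOn_of_hasFDerivWithinAt f s (fun x => fderiv ℝ f x)
      (fun x hx => (hs x hx).hasFDerivAt.hasFDerivWithinAt)
      (fun A => if A 1 = 0 then δ else η * ‖A 1‖₊) (by
        intro A
        show (if A 1 = 0 then δ else η * ‖A 1‖₊) ≠ 0
        split_ifs with h
        · exact hδ.ne'
        · exact mul_ne_zero hηpos (by simpa using h))
  have hpiece : ∀ n, μH[1] (P.E ∩ f '' (s ∩ t n)) ≤ δ * volume (Icc (-R) R ∩ t n) := by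
    intro n
    have h1 := happ n
    by_cases hA : (A n) 1 = 0
    · simp only [hA, if_true] at h1
      have hlip : LipschitzOnWith δ f (s ∩ t n) := by
        apply LipschitzOnWith.of_dist_le_mul
        intro x hx y hy
        have h2 := h1 x hx y hy
        have h3 : (A n) (x - y) = 0 := by
          have : (A n) (x - y) = (A n) ((x - y) • (1 : ℝ)) := by rw [smul_eq_mul, mul_one]
          rw [this, map_smul, hA, smul_zero]
        rw [h3, sub_zero] at h2
        rw [dist_eq_norm, dist_eq_norm]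
        exact h2
      calc μH[1] (P.E ∩ f '' (s ∩ t n)) ≤ μH[1] (f '' (s ∩ t n)) := measure_mono inter_subset_right
        _ ≤ (δ : ℝ≥0∞) ^ (1 : ℝ) * μH[1] (s ∩ t n) := hlip.hausdorffMeasure_image_le (by norm_num)
        _ = δ * volume (s ∩ t n) := by rw [ENNReal.rpow_one, hausdorffMeasure_real]
        _ ≤ _ := by
          apply mul_le_mul_right
          exact measure_mono (inter_subset_inter_left _ hsR)
    · simp only [hA, if_false] at h1
      have hthin := thin_of_approx f (A n) (s ∩ t n) η (by rw [hηv]; linarith) hA h1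
      have h2 := P.null_of_thin (P.E ∩ f '' (s ∩ t n)) inter_subset_left (2 * η)
        (by rw [hηv]; positivity) (by rw [hηv]; linarith) (hthin.mono inter_subset_right)
        (by rw [hηv]; linarith)
      rw [h2]
      exact zero_le
  have htot : μH[1] (P.E ∩ f '' s) ≤ δ * volume (Icc (-R) R) := by
    calc μH[1] (P.E ∩ f '' s) ≤ μH[1] (⋃ n, P.E ∩ f '' (s ∩ t n)) := by
          apply measure_mono
          rintro z ⟨hz, x, hx, rfl⟩
          obtain ⟨n, hn⟩ := mem_iUnion.mp (hcov hx)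
          exact mem_iUnion.mpr ⟨n, hz, x, ⟨hx, hn⟩, rfl⟩
      _ ≤ ∑' n, μH[1] (P.E ∩ f '' (s ∩ t n)) := measure_iUnion_le _
      _ ≤ ∑' n, δ * volume (Icc (-R) R ∩ t n) := ENNReal.tsum_le_tsum hpiece
      _ = δ * ∑' n, volume (Icc (-R) R ∩ t n) := ENNReal.tsum_mul_left
      _ = δ * volume (⋃ n, Icc (-R) R ∩ t n) := by
          rw [measure_iUnion]
          · intro i j hij
            exact (hdisj hij).mono inter_subset_right inter_subset_right
          · intro n; exact measurableSet_Icc.inter (hmeas n)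
      _ ≤ _ := by
          apply mul_le_mul_right
          apply measure_mono
          exact iUnion_subset fun n => inter_subset_left
  exact absurd hδ2 (not_lt.mpr htot)

lemma null_lipschitz (f : ℝ → ℂ) (K : ℝ≥0) (hf : LipschitzWith K f) :
    μH[1] (P.E ∩ range f) = 0 := by
  have h1 : P.E ∩ range f ⊆ f '' {x | ¬ DifferentiableAt ℝ f x} ∪
      ⋃ R : ℕ, P.E ∩ f '' (Icc (-(R : ℝ)) R ∩ {x | DifferentiableAt ℝ f x}) := by
    rintro _ ⟨hz, x, rfl⟩
    by_cases hx : DifferentiableAt ℝ f x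
    · right
      obtain ⟨R, hR⟩ := exists_nat_ge |x|
      rw [abs_le] at hR
      exact mem_iUnion.mpr ⟨R, hz, x, ⟨hR, hx⟩, rfl⟩
    · left; exact ⟨x, hx, rfl⟩
  refine measure_mono_null h1 (measure_union_null ?_ (measure_iUnion_null fun R => ?_))
  · have h2 : volume {x | ¬ DifferentiableAt ℝ f x} = 0 := hf.ae_differentiableAt
    have h3 := hf.hausdorffMeasure_image_le (d := 1) (by norm_num) {x | ¬ DifferentiableAt ℝ f x}
    rw [hausdorffMeasure_real, h2, mul_zero] at h3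
    exact le_antisymm h3 zero_le
  · exact P.null_diff f _ R inter_subset_left (fun x hx => hx.2)

end Par

end Pool.Agent.R21.CD
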